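import Pool.Agent.Helper23.MB.L05_ab0

set_option autoImplicit false

open scoped LinearAlgebra.Projectivization

namespace Pool.Agent.Results.MP_9b502d_nt.OwnStatement

/-- `K` is the function field of an integral curve over `k`: it is finitely generated over `k` and
algebraic over `k(x)` for some `x` transcendental over `k`. -/
def IsCurveFunctionField (k K : Type) [Field k] [Field K] [Algebra k K] : Prop :=
  (⊤ : IntermediateField k K).FG ∧ ∃ x : K, Transcendental k x ∧
    Algebra.IsAlgebraic (IntermediateField.adjoin k {x}) K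

/-- A rational function of degree `d` over the field `L`, as a self-map
`[x : y] ↦ [F(x, y) : G(x, y)]` of the projective line: `F` and `G` are binary forms of degree `d`
over `L` without common zero in the projective line over the algebraic closure of `L`. -/
structure RatMap (L : Type) [Field L] (d : ℕ) where
  /-- the numerator -/
  F : MvPolynomial (Fin 2) L
  /-- the denominator -/
  G : MvPolynomial (Fin 2) L
  homF : F.IsHomogeneous d
  homG : G.IsHomogeneous d
  noZero : ∀ v : Fin 2 → AlgebraicClosure L, MvPolynomial.aeval v F = 0 →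
    MvPolynomial.aeval v G = 0 → v = 0

/-- The map `v ↦ (F(v), G(v))`, on vectors over an extension field. -/
noncomputable def RatMap.ev {L : Type} [Field L] {d : ℕ} (f : RatMap L d) {E : Type} [Field E]
    [Algebra L E] (v : Fin 2 → E) : Fin 2 → E :=
  ![MvPolynomial.aeval v f.F, MvPolynomial.aeval v f.G]

lemma RatMap.ev_eq_zero {L : Type} [Field L] {d : ℕ} (f : RatMap L d) {E : Type} [Field E]
    [Algebra L E] [Algebra.IsAlgebraic L E] {v : Fin 2 → E} (h : f.ev v = 0) : v = 0 := by
  let φ : E →ₐ[L] AlgebraicClosure L := IsAlgClosed.lift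
  have h1 : (fun i => φ (v i)) = 0 := by
    apply f.noZero
    · have h2 := congrFun h 0
      simp only [RatMap.ev, Matrix.cons_val_zero, Pi.zero_apply] at h2
      rw [← map_zero φ, ← h2]
      exact (MvPolynomial.comp_aeval_apply (f := v) φ f.F).symm
    · have h2 := congrFun h 1
      simp only [RatMap.ev, Matrix.cons_val_one, Pi.zero_apply] at h2
      rw [← map_zero φ, ← h2]
      exact (MvPolynomial.comp_aeval_apply (f := v) φ f.G).symm
  funext i
  have h2 := congrFun h1 i
  simpa using h2

/-- The self-map of the projective line over `L`. -/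
noncomputable def RatMap.toFun {L : Type} [Field L] {d : ℕ} (f : RatMap L d)
    (p : ℙ L (Fin 2 → L)) : ℙ L (Fin 2 → L) :=
  Projectivization.mk L (f.ev p.rep) fun h => p.rep_nonzero (f.ev_eq_zero h)

/-- The points of `ℙ¹(L)` with finite forward orbit. -/
def RatMap.prePer {L : Type} [Field L] {d : ℕ} (f : RatMap L d) : Set (ℙ L (Fin 2 → L)) :=
  {p | (Set.range fun n : ℕ => f.toFun^[n] p).Finite}

/-- `f` is conjugate by an element of `PGL_2(E)` to a rational function `h` of degree `d` over the
algebraic closure of `k` in `E`: `f ∘ A = A ∘ h` on the projective line over `E`. -/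
def Isotrivial (k : Type) [Field k] {L : Type} [Field L] {d : ℕ} (f : RatMap L d) (E : Type)
    [Field E] [Algebra k E] [Algebra L E] : Prop :=
  ∃ (A : Matrix (Fin 2) (Fin 2) E) (h : RatMap (algebraicClosure k E) d), A.det ≠ 0 ∧
    ∀ v : Fin 2 → E, v ≠ 0 → ∃ c : E, c ≠ 0 ∧ f.ev (A.mulVec v) = c • A.mulVec (h.ev v)

section aux

variable {L : Type} [Field L] {d : ℕ} (f : RatMap L d)

lemma aeval_smul_hom {E : Type} [Field E] [Algebra L E] {P : MvPolynomial (Fin 2) L} {m : ℕ}
    (hP : P.IsHomogeneous m) (c : E) (v : Fin 2 → E) :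
    MvPolynomial.aeval (c • v) P = c ^ m * MvPolynomial.aeval v P := by
  rw [MvPolynomial.aeval_def, MvPolynomial.aeval_def, MvPolynomial.eval₂_eq',
    MvPolynomial.eval₂_eq', Finset.mul_sum]
  refine Finset.sum_congr rfl fun e he => ?_
  have h1 : e 0 + e 1 = m := by
    have := hP (MvPolynomial.mem_support_iff.1 he)
    rw [Finsupp.weight_apply, Finsupp.sum_fintype _ _ (by simp)] at this
    simpa [Fin.sum_univ_two] using this
  simp only [Fin.prod_univ_two, Pi.smul_apply, smul_eq_mul, mul_pow]
  rw [← h1, pow_add]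
  ring

lemma ev_smul {E : Type} [Field E] [Algebra L E] (c : E) (v : Fin 2 → E) :
    f.ev (c • v) = c ^ d • f.ev v := by
  unfold RatMap.ev
  rw [aeval_smul_hom f.homF, aeval_smul_hom f.homG]
  ext i
  fin_cases i <;> simp

lemma ev_iter_smul {E : Type} [Field E] [Algebra L E] (c : E) (v : Fin 2 → E) (n : ℕ) :
    (f.ev)^[n] (c • v) = c ^ (d ^ n) • (f.ev)^[n] v := by
  induction n with
  | zero => simp
  | succ n ih => rw [Function.iterate_succ_apply', Function.iterate_succ_apply', ih, ev_smul,
      ← pow_mul, pow_succ]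

lemma ev_iter_ne_zero {v : Fin 2 → L} (hv : v ≠ 0) (n : ℕ) : (f.ev)^[n] v ≠ 0 := by
  induction n with
  | zero => exact hv
  | succ n ih =>
    rw [Function.iterate_succ_apply']
    exact fun h => ih (f.ev_eq_zero h)

lemma toFun_mk {v : Fin 2 → L} (hv : v ≠ 0) :
    f.toFun (Projectivization.mk L v hv) =
      Projectivization.mk L (f.ev v) (fun h => hv (f.ev_eq_zero h)) := by
  obtain ⟨a, ha⟩ := Projectivization.exists_smul_eq_mk_rep L v hv
  unfold RatMap.toFun
  rw [Projectivization.mk_eq_mk_iff']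
  refine ⟨(a : L) ^ d, ?_⟩
  rw [← ha]
  exact (ev_smul f (a : L) v).symm

lemma toFun_iter {v : Fin 2 → L} (hv : v ≠ 0) (n : ℕ) :
    f.toFun^[n] (Projectivization.mk L v hv) =
      Projectivization.mk L ((f.ev)^[n] v) (ev_iter_ne_zero f hv n) := by
  induction n with
  | zero => rfl
  | succ n ih =>
    rw [Function.iterate_succ_apply', ih, toFun_mk]
    congr 1
    exact (Function.iterate_succ_apply' _ _ _).symm

lemma exists_rel {p : ℙ L (Fin 2 → L)} (hp : p ∈ f.prePer) :
    ∃ m n : ℕ, m < n ∧ ∃ c : L, c ≠ 0 ∧ (f.ev)^[n] p.rep = c • (f.ev)^[m] p.rep := by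
  have hfin : (Set.range fun n : ℕ => f.toFun^[n] p).Finite := hp
  have hni : ¬ Function.Injective fun n : ℕ => f.toFun^[n] p := fun h =>
    Set.infinite_range_of_injective h hfin
  have hrel : ∀ m n : ℕ, f.toFun^[m] p = f.toFun^[n] p →
      ∃ c : L, c ≠ 0 ∧ (f.ev)^[n] p.rep = c • (f.ev)^[m] p.rep := by
    intro m n h
    rw [← p.mk_rep, toFun_iter, toFun_iter, Projectivization.mk_eq_mk_iff'] at h
    obtain ⟨c, hc⟩ := h
    have hm := ev_iter_ne_zero f p.rep_nonzero m
    have hc0 : c ≠ 0 := by
      rintro rfl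
      rw [zero_smul] at hc
      exact hm hc.symm
    exact ⟨c⁻¹, inv_ne_zero hc0, by rw [← hc, smul_smul, inv_mul_cancel₀ hc0, one_smul]⟩
  simp only [Function.Injective, not_forall] at hni
  obtain ⟨m, n, h, hmn⟩ := hni
  rcases lt_or_gt_of_ne hmn with h1 | h1
  · exact ⟨m, n, h1, hrel m n h⟩
  · exact ⟨n, m, h1, hrel n m h.symm⟩

end aux

/-- Let `K` be the function field of an integral curve over a field `k`, `d ≥ 2` and `D ≥ 1`. There
is `B` such that for every finite extension `L` of `K` in the algebraic closure of `K` of degree at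
most `D` and every rational function `f` of degree `d` over `L` which is not isotrivial, at most `B`
points of `ℙ¹(L)` are preperiodic for `f`. -/
theorem result (k K : Type) [Field k] [Field K] [Algebra k K] (hK : IsCurveFunctionField k K)
    (d : ℕ) (hd : 2 ≤ d) (D : ℕ) (_hD : 1 ≤ D) :
    ∃ B : ℕ, ∀ L : IntermediateField K (AlgebraicClosure K), FiniteDimensional K L →
      Module.finrank K L ≤ D → ∀ f : RatMap L d, ¬ Isotrivial k f (AlgebraicClosure K) →
        f.prePer.encard ≤ B := by
  obtain ⟨B, hB⟩ := Pool.Agent.Helper45.S6.main_of_abs k K hK.1 hK.2 d hd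
    (fun n => Pool.Agent.Helper45.M8.absS_all (fun p _ d n wm hd =>
      Pool.Agent.Helper33.PT.planT p d n hd wm) _ d hd n) D
  refine ⟨B, fun L hfd hL f hf => ?_⟩
  haveI := hfd
  set Ω := AlgebraicClosure K with hΩ
  set F : MvPolynomial (Fin 2) Ω := MvPolynomial.map (algebraMap L Ω) f.F with hF
  set G : MvPolynomial (Fin 2) Ω := MvPolynomial.map (algebraMap L Ω) f.G with hG
  have hevF : ∀ v : Fin 2 → Ω, MvPolynomial.eval v F = MvPolynomial.aeval v f.F := fun v => by
    rw [hF, MvPolynomial.eval_map, MvPolynomial.aeval_def]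
  have hevG : ∀ v : Fin 2 → Ω, MvPolynomial.eval v G = MvPolynomial.aeval v f.G := fun v => by
    rw [hG, MvPolynomial.eval_map, MvPolynomial.aeval_def]
  have hev : (fun v : Fin 2 → Ω => ![MvPolynomial.eval v F, MvPolynomial.eval v G]) =
      fun v => f.ev v := by
    funext v
    rw [hevF, hevG]
    rfl
  have hno : ∀ v : Fin 2 → Ω, MvPolynomial.eval v F = 0 → MvPolynomial.eval v G = 0 → v = 0 := by
    intro v h1 h2
    rw [hevF] at h1
    rw [hevG] at h2
    apply f.ev_eq_zero
    unfold RatMap.ev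
    rw [h1, h2]
    ext i
    fin_cases i <;> rfl
  have hiso : ¬ ∃ (A : Matrix (Fin 2) (Fin 2) Ω) (F' G' : MvPolynomial (Fin 2) Ω),
      A.det ≠ 0 ∧ F'.IsHomogeneous d ∧ G'.IsHomogeneous d ∧
      (∀ m, IsAlgebraic k (F'.coeff m) ∧ IsAlgebraic k (G'.coeff m)) ∧
      ∀ v : Fin 2 → Ω, v ≠ 0 → ∃ c : Ω, c ≠ 0 ∧
        ![MvPolynomial.eval (A.mulVec v) F, MvPolynomial.eval (A.mulVec v) G] =
          c • A.mulVec ![MvPolynomial.eval v F', MvPolynomial.eval v G'] := by
    rintro ⟨A, F', G', hA, hF', hG', halg, hconj⟩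
    apply hf
    have hlift : ∀ P : MvPolynomial (Fin 2) Ω, (∀ m, IsAlgebraic k (P.coeff m)) →
        ∃ P₀ : MvPolynomial (Fin 2) (algebraicClosure k Ω),
          MvPolynomial.map (algebraMap (algebraicClosure k Ω) Ω) P₀ = P := by
      intro P hP
      have h1 : P ∈ Set.range (MvPolynomial.map (σ := Fin 2)
          (algebraMap (algebraicClosure k Ω) Ω)) := by
        rw [MvPolynomial.mem_range_map_iff_coeffs_subset]
        intro c hc
        obtain ⟨m, -, rfl⟩ := MvPolynomial.mem_coeffs_iff.1 hc
        exact ⟨⟨_, mem_algebraicClosure_iff.2 (hP m)⟩, rfl⟩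
      exact h1
    obtain ⟨F₀, hF₀⟩ := hlift F' fun m => (halg m).1
    obtain ⟨G₀, hG₀⟩ := hlift G' fun m => (halg m).2
    have hinj : Function.Injective (algebraMap (algebraicClosure k Ω) Ω) :=
      (algebraMap (algebraicClosure k Ω) Ω).injective
    refine ⟨A, ⟨F₀, G₀, ?_, ?_, ?_⟩, hA, ?_⟩
    · rw [← hF₀] at hF'
      exact MvPolynomial.IsHomogeneous.of_map hinj hF'
    · rw [← hG₀] at hG'
      exact MvPolynomial.IsHomogeneous.of_map hinj hG'
    · intro v h1 h2
      by_contra hv
      let φ : AlgebraicClosure (algebraicClosure k Ω) →ₐ[algebraicClosure k Ω] Ω :=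
        IsAlgClosed.lift
      have hw : (fun i => φ (v i)) ≠ 0 := by
        intro h
        apply hv
        funext i
        have := congrFun h i
        simpa using this
      have e1 : MvPolynomial.eval (fun i => φ (v i)) F' = 0 := by
        rw [← hF₀, MvPolynomial.eval_map, ← MvPolynomial.aeval_def, ← map_zero φ, ← h1]
        exact (MvPolynomial.comp_aeval_apply (f := v) φ F₀).symm
      have e2 : MvPolynomial.eval (fun i => φ (v i)) G' = 0 := by
        rw [← hG₀, MvPolynomial.eval_map, ← MvPolynomial.aeval_def, ← map_zero φ, ← h2]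
        exact (MvPolynomial.comp_aeval_apply (f := v) φ G₀).symm
      obtain ⟨c, -, hc⟩ := hconj _ hw
      rw [e1, e2] at hc
      have hz : (![(0 : Ω), 0] : Fin 2 → Ω) = 0 := by
        ext i
        fin_cases i <;> rfl
      rw [hz, Matrix.mulVec_zero, smul_zero] at hc
      have h3 := hno _ (congrFun hc 0) (congrFun hc 1)
      apply hw
      have h4 := Matrix.mulVec_injective_iff_isUnit.2
        ((Matrix.isUnit_iff_isUnit_det A).2 (isUnit_iff_ne_zero.2 hA))
      exact h4 (by rw [h3, Matrix.mulVec_zero])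
    · intro v hv
      obtain ⟨c, hc0, hc⟩ := hconj v hv
      refine ⟨c, hc0, ?_⟩
      have h1 : f.ev (A.mulVec v) =
          ![MvPolynomial.eval (A.mulVec v) F, MvPolynomial.eval (A.mulVec v) G] := by
        rw [hevF, hevG]
        rfl
      rw [h1, hc]
      have e1 : MvPolynomial.eval v F' = MvPolynomial.aeval v F₀ := by
        rw [← hF₀, MvPolynomial.eval_map, MvPolynomial.aeval_def]
      have e2 : MvPolynomial.eval v G' = MvPolynomial.aeval v G₀ := by
        rw [← hG₀, MvPolynomial.eval_map, MvPolynomial.aeval_def]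
      rw [e1, e2]
      rfl
  have hbound := hB F G (f.homF.map _) (f.homG.map _) hno hiso L hfd hL (fun m => by
    rw [hF, hG, MvPolynomial.coeff_map, MvPolynomial.coeff_map]
    exact ⟨(f.F.coeff m).2, (f.G.coeff m).2⟩)
  -- the points over `L` inside the points over the algebraic closure
  have halgne : ∀ v : Fin 2 → L, v ≠ 0 → (fun i => algebraMap L Ω (v i)) ≠ 0 := by
    intro v hv h
    apply hv
    funext i
    have := congrFun h i
    simpa using this
  let ι : ℙ L (Fin 2 → L) → ℙ Ω (Fin 2 → Ω) := fun p =>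
    Projectivization.mk Ω (fun i => algebraMap L Ω (p.rep i)) (halgne _ p.rep_nonzero)
  have hι : Function.Injective ι := by
    intro p q hpq
    obtain ⟨c, hc⟩ := (Projectivization.mk_eq_mk_iff' Ω _ _ _ _).1 hpq
    obtain ⟨i, hi⟩ : ∃ i, q.rep i ≠ 0 := by
      by_contra h
      push Not at h
      exact q.rep_nonzero (funext h)
    have hc1 : c = algebraMap L Ω (p.rep i / q.rep i) := by
      have h1 := congrFun hc i
      simp only [Pi.smul_apply, smul_eq_mul] at h1
      rw [map_div₀, ← h1, mul_div_cancel_right₀]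
      simpa using hi
    rw [← p.mk_rep, ← q.mk_rep, Projectivization.mk_eq_mk_iff']
    refine ⟨p.rep i / q.rep i, ?_⟩
    funext j
    have h1 := congrFun hc j
    simp only [Pi.smul_apply, smul_eq_mul] at h1
    apply (algebraMap L Ω).injective
    rw [Pi.smul_apply, smul_eq_mul, map_mul, ← hc1, h1]
  rw [← hι.encard_image]
  refine le_trans (Set.encard_le_encard ?_) hbound
  rintro _ ⟨p, hp, rfl⟩
  obtain ⟨m, n, hmn, c, hc0, hc⟩ := exists_rel f hp
  obtain ⟨a, ha⟩ := Projectivization.exists_smul_eq_mk_rep Ω (fun i => algebraMap L Ω (p.rep i))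
    (halgne _ p.rep_nonzero)
  have ha' : (ι p).rep = (a : Ω) • fun i => algebraMap L Ω (p.rep i) := ha.symm
  have hit : ∀ r : ℕ, (fun v : Fin 2 → Ω => f.ev v)^[r] (fun i => algebraMap L Ω (p.rep i)) =
      fun i => algebraMap L Ω ((f.ev)^[r] p.rep i) := by
    intro r
    induction r with
    | zero => rfl
    | succ r ih =>
      rw [Function.iterate_succ_apply', ih, Function.iterate_succ_apply']
      funext i
      unfold RatMap.ev
      fin_cases i
      · exact MvPolynomial.aeval_algebraMap_apply Ω _ f.F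
      · exact MvPolynomial.aeval_algebraMap_apply Ω _ f.G
  refine ⟨⟨m, n, hmn, (a : Ω) ^ (d ^ n) * algebraMap L Ω c * ((a : Ω) ^ (d ^ m))⁻¹, ?_, ?_⟩,
    L, hfd, hL, (a : Ω)⁻¹, inv_ne_zero a.ne_zero, fun i => ?_⟩
  · refine mul_ne_zero (mul_ne_zero (pow_ne_zero _ a.ne_zero) ?_)
      (inv_ne_zero (pow_ne_zero _ a.ne_zero))
    simpa using hc0
  · rw [hev, ha']
    have h1 := ev_iter_smul f (a : Ω) (fun i => algebraMap L Ω (p.rep i)) n
    have h2 := ev_iter_smul f (a : Ω) (fun i => algebraMap L Ω (p.rep i)) m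
    refine h1.trans ?_
    refine Eq.trans ?_ (congrArg _ h2.symm)
    rw [show (f.ev)^[n] (fun i => algebraMap L Ω (p.rep i)) = _ from hit n,
      show (f.ev)^[m] (fun i => algebraMap L Ω (p.rep i)) = _ from hit m, hc]
    funext i
    have ha0 : (a : Ω) ^ (d ^ m) ≠ 0 := pow_ne_zero _ a.ne_zero
    simp only [Pi.smul_apply, smul_eq_mul, map_mul]
    field_simp
    ring
  · rw [ha', Pi.smul_apply, smul_eq_mul, inv_mul_cancel_left₀ a.ne_zero]
    exact (p.rep i).2

end Pool.Agent.Results.MP_9b502d_nt.OwnStatement
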