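import Pool.Agent.Helper23.MB.L02_abc0

/-!
# A bound for preperiodic points, uniform in the function field

For all `d ≥ 2` and `s` there is a bound `B` such that for every field `k`, every function field
`L` of one variable over `k` and every non-isotrivial rational map of degree `d` over `L` which has
potentially good reduction at all but at most `s` places of `L`, the map has at most `B` preperiodic
points in `ℙ¹(L)`.
-/

set_option autoImplicit false

namespace Pool.Agent.Results.MP_9b502d_nt.UniformSUBP

open Pool.Agent.Helper55.RM

theorem result :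
    ∀ d s : ℕ, 2 ≤ d → ∃ B : ℕ, ∀ (k L : Type) [Field k] [Field L] [Algebra k L],
      (⊤ : IntermediateField k L).FG →
      (∃ x : L, Transcendental k x ∧
        Algebra.IsAlgebraic (IntermediateField.adjoin k {x}) L) →
      ∀ Φ : Fin 2 → MvPolynomial (Fin 2) L, IsRat d Φ → ¬ Isotrivial k d Φ →
        {v : Place k L | ¬ PotGood v d Φ}.encard ≤ s → (prePer Φ).encard ≤ B := by
  intro d s hd
  refine ⟨bound d s, fun k L _ _ _ hfg htr Φ hΦ hiso hbad => ?_⟩
  have hfin : {v : Place k L | ¬ PotGood v d Φ}.Finite := Set.finite_of_encard_le_coe hbad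
  refine main d s hd k L hfg htr Φ hΦ hiso ⟨hfin.toFinset, ?_, fun v hv => ?_⟩
  · rw [hfin.encard_eq_coe_toFinset_card] at hbad
    exact_mod_cast hbad
  · by_contra h
    exact hv (hfin.mem_toFinset.2 h)

end Pool.Agent.Results.MP_9b502d_nt.UniformSUBP
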